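import Mathlib

set_option autoImplicit false

namespace Pool.Agent.Results.MP_3bc6ef_co.NotMono

open Finset

/-- `A` is `t`-independent: no signed combination of weight in `[1, t]` vanishes. -/
def Indep {n : ℕ} (t : ℕ) (A : Finset (ZMod n)) : Prop :=
  ∀ l : ZMod n → ℤ, 1 ≤ ∑ a ∈ A, |l a| → ∑ a ∈ A, |l a| ≤ t → ∑ a ∈ A, l a • a ≠ 0

/-- The maximum size of a `t`-independent subset of `ZMod n`. -/
noncomputable def tau (n t : ℕ) : ℕ := sSup {m | ∃ A : Finset (ZMod n), Indep t A ∧ A.card = m}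

lemma Indep.mono {n t : ℕ} {A B : Finset (ZMod n)} (h : Indep t A) (hB : B ⊆ A) : Indep t B := by
  intro l h1 h2
  have e1 : ∑ a ∈ A, |if a ∈ B then l a else 0| = ∑ a ∈ B, |l a| := by
    rw [← sum_subset hB fun x _ hx => by simp [hx]]
    exact sum_congr rfl fun x hx => by simp [hx]
  have e2 : ∑ a ∈ A, (if a ∈ B then l a else 0) • a = ∑ a ∈ B, l a • a := by
    rw [← sum_subset hB fun x _ hx => by simp [hx]]
    exact sum_congr rfl fun x hx => by simp [hx]
  rw [← e2]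
  exact h _ (e1 ▸ h1) (e1 ▸ h2)

lemma le_tau {n t : ℕ} [NeZero n] {A : Finset (ZMod n)} (h : Indep t A) : A.card ≤ tau n t :=
  le_csSup ⟨Fintype.card (ZMod n), by rintro _ ⟨B, -, rfl⟩; exact card_le_univ B⟩ ⟨A, h, rfl⟩

lemma tau_le {n t k : ℕ} (h : ∀ A : Finset (ZMod n), Indep t A → A.card ≤ k) : tau n t ≤ k :=
  csSup_le' (by rintro _ ⟨B, hB, rfl⟩; exact h B hB)

/-- coefficient pairs `(j, k)` with `|j| + |k| ≤ 10`, with their weight, reduced mod 265 -/
def prs : List (ℕ × ℕ × ℕ) :=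
  (List.range 11).flatMap fun j => (List.range (11 - j)).flatMap fun k =>
    [(j, k, j + k), (j, 265 - k, j + k)]

def hit (b c : ℕ) (q : ℕ × ℕ × ℕ) : Bool :=
  Nat.ble ((q.1 * b + q.2.1 * c + (10 - q.2.2)) % 265) (2 * (10 - q.2.2)) && Nat.ble 1 q.2.2

def chk1 : Bool :=
  (List.range 133).all fun b => (List.range (b + 1)).all fun c => prs.any (hit b c)

def hit2 (b c : ℕ) (q : ℕ × ℕ × ℕ) : Bool :=
  Nat.beq ((q.1 * b + q.2.1 * c) % 265) 0 && Nat.ble 1 q.2.2

def chk2 : Bool := (List.range 265).all fun b => Nat.beq (Nat.gcd b 265) 1 ||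
  (List.range b).all fun c => Nat.beq (Nat.gcd c 265) 1 || prs.any (hit2 b c)

lemma chk1_true : chk1 = true := by decide +kernel

lemma chk2_true : chk2 = true := by decide +kernel

lemma prs_spec : ∀ q ∈ prs, ∃ k : ℤ, (q.2.1 : ZMod 265) = k ∧ (q.1 : ℤ) + |k| = q.2.2 ∧
    q.2.2 ≤ 10 := by
  intro q hq
  simp only [prs, List.mem_flatMap, List.mem_range, List.mem_cons, List.not_mem_nil,
    or_false] at hq
  obtain ⟨j, hj, k, hk, rfl | rfl⟩ := hq
  · exact ⟨k, by simp, by simp, by simp only; omega⟩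
  · refine ⟨-k, ?_, by simp, by simp only; omega⟩
    simp only
    rw [Nat.cast_sub (by omega)]
    have : ((265 : ℕ) : ZMod 265) = 0 := ZMod.natCast_self 265
    rw [this]; simp

lemma rel0 (b c : ZMod 265) (hb : b.val < 133) (h : c.val < b.val + 1) :
    ∃ i j k : ℤ, 1 ≤ |i| + |j| + |k| ∧
    |i| + |j| + |k| ≤ 10 ∧ (i : ZMod 265) + j * b + k * c = 0 := by
  have h1 := chk1_true
  simp only [chk1, List.all_eq_true, List.mem_range, List.any_eq_true] at h1
  obtain ⟨q, hq, h2⟩ := h1 _ hb _ h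
  obtain ⟨k, hk, h3, h4⟩ := prs_spec q hq
  simp only [hit, Bool.and_eq_true, Nat.ble_eq] at h2
  set r := (q.1 * b.val + q.2.1 * c.val + (10 - q.2.2)) % 265 with hr
  have h5 : (r : ZMod 265) = q.1 * b + k * c + ((10 - q.2.2 : ℕ) : ZMod 265) := by
    rw [hr, ZMod.natCast_mod]; push_cast [hk]; simp
  refine ⟨((10 - q.2.2 : ℕ) : ℤ) - r, q.1, k, ?_, ?_, ?_⟩
  · rw [abs_of_nonneg (a := (q.1 : ℤ)) (by positivity)]
    have := abs_nonneg (((10 - q.2.2 : ℕ) : ℤ) - r)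
    omega
  · rw [abs_of_nonneg (a := (q.1 : ℤ)) (by positivity)]
    rcases abs_cases (((10 - q.2.2 : ℕ) : ℤ) - r) with h | h <;> omega
  · rw [Int.cast_sub, Int.cast_natCast, Int.cast_natCast, Int.cast_natCast, h5]; ring

lemma small (x : ZMod 265) : ∃ s : ℤ, |s| = 1 ∧ ((s : ZMod 265) * x).val < 133 := by
  revert x
  have : ∀ x : ZMod 265, (((1 : ℤ) : ZMod 265) * x).val < 133 ∨
    (((-1 : ℤ) : ZMod 265) * x).val < 133 := by decide +kernel
  intro x
  rcases this x with h | h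
  · exact ⟨1, by simp, h⟩
  · exact ⟨-1, by simp, h⟩

lemma rel1 (b c : ZMod 265) : ∃ i j k : ℤ, 1 ≤ |i| + |j| + |k| ∧
    |i| + |j| + |k| ≤ 10 ∧ (i : ZMod 265) + j * b + k * c = 0 := by
  obtain ⟨s, hs, hb⟩ := small b
  obtain ⟨r, hr, hc⟩ := small c
  rcases le_total ((s : ZMod 265) * b).val ((r : ZMod 265) * c).val with h | h
  · obtain ⟨i, j, k, h1, h2, h3⟩ := rel0 _ _ hc (Nat.lt_succ_of_le h)
    refine ⟨i, k * s, j * r, ?_, ?_, by push_cast; linear_combination h3⟩ <;>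
      simp only [abs_mul, hs, hr, mul_one] <;> omega
  · obtain ⟨i, j, k, h1, h2, h3⟩ := rel0 _ _ hb (Nat.lt_succ_of_le h)
    refine ⟨i, j * s, k * r, ?_, ?_, by push_cast; linear_combination h3⟩ <;>
      simp only [abs_mul, hs, hr, mul_one] <;> omega

lemma rel2 (b c : ZMod 265) (h : c.val < b.val) (hb : ¬ IsUnit b) (hc : ¬ IsUnit c) :
    ∃ j k : ℤ, 1 ≤ |j| + |k| ∧ |j| + |k| ≤ 10 ∧ j * b + k * c = 0 := by
  have h1 := chk2_true
  have hu : ∀ x : ZMod 265, ¬ IsUnit x → Nat.gcd x.val 265 ≠ 1 := fun x hx h => hx (by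
    rw [← ZMod.natCast_zmod_val x]; exact (ZMod.isUnit_iff_coprime _ _).2 h)
  simp only [chk2, List.all_eq_true, List.mem_range, List.any_eq_true, Bool.or_eq_true,
    Nat.beq_eq] at h1
  obtain ⟨q, hq, h2⟩ := (((h1 _ (ZMod.val_lt b)).resolve_left (hu b hb)) _ h).resolve_left (hu c hc)
  obtain ⟨k, hk, h3, h4⟩ := prs_spec q hq
  simp only [hit2, Bool.and_eq_true, Nat.ble_eq, Nat.beq_eq] at h2
  have h5 : (((q.1 * b.val + q.2.1 * c.val) % 265 : ℕ) : ZMod 265) = q.1 * b + k * c := by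
    rw [ZMod.natCast_mod]; push_cast [hk]; simp
  refine ⟨q.1, k, ?_, ?_, ?_⟩
  · rw [abs_of_nonneg (a := (q.1 : ℤ)) (by positivity)]; omega
  · rw [abs_of_nonneg (a := (q.1 : ℤ)) (by positivity)]; omega
  · rw [Int.cast_natCast, ← h5, h2.1]; simp

def Rel3 (a b c : ZMod 265) : Prop := ∃ i j k : ℤ, 1 ≤ |i| + |j| + |k| ∧
    |i| + |j| + |k| ≤ 10 ∧ i * a + j * b + k * c = 0

lemma relU (a b c : ZMod 265) (ha : IsUnit a) : Rel3 a b c := by
  obtain ⟨u, hu⟩ := ha.exists_left_inv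
  obtain ⟨i, j, k, h1, h2, h3⟩ := rel1 (u * b) (u * c)
  exact ⟨i, j, k, h1, h2, by linear_combination a * h3 - (j * b + k * c) * hu⟩

lemma rel3 (a b c : ZMod 265) (hab : a ≠ b) : Rel3 a b c := by
  by_cases ha : IsUnit a
  · exact relU a b c ha
  by_cases hb : IsUnit b
  · obtain ⟨i, j, k, h1, h2, h3⟩ := relU b a c hb
    exact ⟨j, i, k, by omega, by omega, by linear_combination h3⟩
  have hne : a.val ≠ b.val := fun h => hab (ZMod.val_injective _ h)
  rcases lt_or_gt_of_ne hne with h | h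
  · obtain ⟨j, k, h1, h2, h3⟩ := rel2 _ _ h hb ha
    exact ⟨k, j, 0, by simp; omega, by simp; omega, by linear_combination h3⟩
  · obtain ⟨j, k, h1, h2, h3⟩ := rel2 _ _ h ha hb
    exact ⟨j, k, 0, by simp; omega, by simp; omega, by linear_combination h3⟩

lemma sum3 {α M : Type} [DecidableEq α] [AddCommMonoid M] {a b c : α} (hab : a ≠ b) (hac : a ≠ c)
    (hbc : b ≠ c) (f : α → M) : ∑ x ∈ {a, b, c}, f x = f a + f b + f c := by
  rw [sum_insert (by simp [hab, hac]), sum_pair hbc, add_assoc]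

lemma tau265 : tau 265 10 ≤ 2 := by
  refine tau_le fun A hA => ?_
  by_contra h
  obtain ⟨a, b, c, ha, hb, hc, hab, hac, hbc⟩ := two_lt_card_iff.1 (not_le.1 h)
  obtain ⟨i, j, k, h1, h2, h3⟩ := rel3 a b c hab
  have := (hA.mono (B := {a, b, c}) (by intro x; simp; rintro (rfl | rfl | rfl) <;> assumption))
    (fun x => if x = a then i else if x = b then j else k)
  simp only [sum3 hab hac hbc, if_true, if_neg hab.symm, if_neg hac.symm, if_neg hbc.symm,
    zsmul_eq_mul] at this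
  exact this h1 h2 h3

lemma ind261 : Indep 10 ({1, 36, 61} : Finset (ZMod 261)) := by
  intro l
  rw [sum3 (by decide) (by decide) (by decide), sum3 (by decide) (by decide) (by decide)]
  generalize l 1 = i
  generalize l 36 = j
  generalize l 61 = k
  intro h1 h2 h3
  have h4 : ((i + 36 * j + 61 * k : ℤ) : ZMod 261) = 0 := by
    rw [← h3]; simp [mul_comm]
  have h5 : (261 : ℤ) ∣ i + 36 * j + 61 * k := (ZMod.intCast_zmod_eq_zero_iff_dvd _ 261).1 h4
  have key : ∀ i ∈ Icc (-10 : ℤ) 10, ∀ j ∈ Icc (-10 : ℤ) 10, ∀ k ∈ Icc (-10 : ℤ) 10,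
      1 ≤ |i| + |j| + |k| → |i| + |j| + |k| ≤ 10 → ¬ (261 : ℤ) ∣ i + 36 * j + 61 * k := by
    decide +kernel
  have hi := abs_nonneg i
  have hj := abs_nonneg j
  have hk := abs_nonneg k
  exact key i (mem_Icc.2 (abs_le.1 (by omega))) j (mem_Icc.2 (abs_le.1 (by omega))) k
    (mem_Icc.2 (abs_le.1 (by omega))) h1 h2 h5

theorem result : ∃ t : ℕ, 2 ≤ t ∧ Even t ∧ ¬ MonotoneOn (fun n => tau n t) {n | Odd n} ∧
    ¬ AntitoneOn (fun n => tau n t) {n | Odd n} := by
  have h261 : 3 ≤ tau 261 10 := le_tau ind261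
  have h1 : tau 1 10 ≤ 1 := tau_le fun A _ => card_le_univ A
  have h265 := tau265
  refine ⟨10, by norm_num, by decide, ?_, ?_⟩
  · intro h
    have : tau 261 10 ≤ tau 265 10 := h (a := 261) (b := 265) (by decide) (by decide) (by norm_num)
    omega
  · intro h
    have : tau 261 10 ≤ tau 1 10 := h (a := 1) (b := 261) (by decide) (by decide) (by norm_num)
    omega

end Pool.Agent.Results.MP_3bc6ef_co.NotMono
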